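import Pool.Agent.N236.UR.Stm6

/-!
UR/TRANS (helper562, project UR of helper236): purely transcendental extensions of `ℚ` embed in `ℚ_p`.
-/

set_option autoImplicit false

open Cardinal

namespace Pool.Agent.N562.UR

theorem inf_basis (p : ℕ) [Fact p.Prime] (s : Set ℚ_[p])
    (hs : IsTranscendenceBasis ℚ (Subtype.val : s → ℚ_[p])) : Infinite s := by
  by_contra h
  rw [not_infinite_iff_finite] at h
  have h1 : Algebra.IsAlgebraic (Algebra.adjoin ℚ (Set.range (Subtype.val : s → ℚ_[p]))) ℚ_[p] :=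
    hs.isAlgebraic
  have h2 : #ℚ_[p] ≤ max #(Algebra.adjoin ℚ (Set.range (Subtype.val : s → ℚ_[p]))) ℵ₀ :=
    Algebra.IsAlgebraic.cardinalMk_le_max _ _
  have h3 := Algebra.cardinalMk_adjoin_le ℚ (Set.range (Subtype.val : s → ℚ_[p]))
  have h4 : #(Set.range (Subtype.val : s → ℚ_[p])) ≤ ℵ₀ :=
    Cardinal.le_aleph0_iff_set_countable.2 (Set.finite_range _).countable
  have h5 : #ℚ ≤ ℵ₀ := mk_le_aleph0
  have h6 : #ℚ_[p] ≤ ℵ₀ :=
    h2.trans (max_le (h3.trans (max_le (max_le h5 h4) le_rfl)) le_rfl)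
  have h7 := continuum_le_cardinal_of_nontriviallyNormedField ℚ_[p]
  exact absurd (h7.trans h6) (not_le.2 aleph0_lt_continuum)

theorem trans_main (p : ℕ) [Fact p.Prime] (n : ℕ) :
    Nonempty (FractionRing (MvPolynomial (Fin n) ℚ) →+* ℚ_[p]) := by
  obtain ⟨s, hs⟩ := exists_isTranscendenceBasis ℚ ℚ_[p]
  have hi := inf_basis p s hs
  have h1 := hs.1.comp (fun i : Fin n => Infinite.natEmbedding s i)
    (fun i j h => Fin.ext ((Infinite.natEmbedding s).injective h))
  exact ⟨IsFractionRing.lift (A := MvPolynomial (Fin n) ℚ)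
    (g := (MvPolynomial.aeval (R := ℚ)
      (Subtype.val ∘ fun i : Fin n => Infinite.natEmbedding s i)).toRingHom) h1⟩

theorem t_trans : Pool.Agent.N236.UR.S_TRANS := by
  intro p _ n
  exact trans_main p n

end Pool.Agent.N562.UR
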